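import Mathlib

namespace Pool.Agent.H.MP_02b125_co

open Finset

section fam
variable {n : ℕ} {𝒜 : Finset (Finset (Fin n))}

theorem sum_cp (hs : ∀ z, zᶜ ∈ 𝒜 ↔ z ∉ 𝒜) (h : Finset (Fin n) → ℝ) :
    ∑ z ∈ 𝒜ᶜ, h z = ∑ z ∈ 𝒜, h zᶜ :=
  sum_bij' (fun z _ => zᶜ) (fun z _ => zᶜ) (fun z hz => (hs z).2 (mem_compl.1 hz))
    (fun z hz => mem_compl.2 fun h => (hs z).1 h hz) (by simp) (by simp) (by simp)

theorem half (hs : ∀ z, zᶜ ∈ 𝒜 ↔ z ∉ 𝒜) : 2 * #𝒜 = 2 ^ n := by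
  have h1 : #𝒜ᶜ = #𝒜 := by simpa using sum_cp hs fun _ => 1
  have h2 := card_add_card_compl 𝒜
  rw [Fintype.card_finset, Fintype.card_fin] at h2
  omega

theorem hall (hl : IsLowerSet (𝒜 : Set (Finset (Fin n)))) (hs : ∀ z, zᶜ ∈ 𝒜 ↔ z ∉ 𝒜) :
    ∃ φ : Finset (Fin n) → Finset (Fin n), Set.InjOn φ 𝒜 ∧ ∀ z ∈ 𝒜, z ⊆ φ z ∧ φ z ∉ 𝒜 := by
  obtain ⟨f, f1, f2⟩ := (all_card_le_biUnion_card_iff_exists_injective
    fun a : 𝒜 => ({b | a.1 ⊆ b ∧ b ∉ 𝒜} : Finset _)).1 fun s => by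
      set U : Finset (Finset (Fin n)) := {b | ∃ a ∈ s, a.1 ⊆ b} with hU
      have u1 : IsUpperSet (U : Set (Finset (Fin n))) := fun b c h hb => by
        simp only [hU, coe_filter, mem_univ, true_and, Set.mem_ofPred_eq] at hb ⊢
        exact hb.imp fun a ha => ⟨ha.1, ha.2.trans h⟩
      have u2 := u1.card_inter_le_finset hl
      rw [Fintype.card_fin, ← half hs] at u2
      have u3 := card_sdiff_add_card_inter U 𝒜
      have u4 : #s ≤ #(U ∩ 𝒜) := card_le_card_of_injOn Subtype.val (fun a ha => by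
        simp only [hU, coe_inter, coe_filter, mem_univ, true_and, Set.mem_inter_iff]
        exact ⟨⟨a, ha, subset_rfl⟩, a.2⟩) Subtype.val_injective.injOn
      have u5 : 0 < #𝒜 := by have := half hs; have := Nat.two_pow_pos n; omega
      refine le_trans ?_ (card_le_card (s := U \ 𝒜) fun b hb => ?_)
      · have : 2 * #(U ∩ 𝒜) ≤ #U := Nat.le_of_mul_le_mul_right (by nlinarith) u5
        omega
      · simp only [hU, mem_sdiff, mem_filter, mem_univ, true_and, mem_biUnion] at hb ⊢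
        exact hb.1.imp fun a ha => ⟨ha.1, ha.2, hb.2⟩
  refine ⟨fun z => if h : z ∈ 𝒜 then f ⟨z, h⟩ else z, fun z hz w hw e => ?_, fun z hz => ?_⟩
  · simp only [dif_pos (mem_coe.1 hz), dif_pos (mem_coe.1 hw)] at e
    exact congrArg Subtype.val (f1 e)
  · simpa [hz] using f2 ⟨z, hz⟩

end fam

theorem dict {n : ℕ} (x : Fin n) :
    ∑ z ∈ ({z | x ∉ z} : Finset (Finset (Fin n))), ((n : ℝ) - 2 * #z) =
      #({z | x ∉ z} : Finset (Finset (Fin n))) := by
  have : ∑ z ∈ ({z | x ∉ z} : Finset (Finset (Fin n))), (#z : ℝ) =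
      ∑ z ∈ ({z | x ∉ z} : Finset (Finset (Fin n))), ((n : ℝ) - 1 - #z) := by
    refine sum_bij' (fun z _ => (insert x z)ᶜ) (fun z _ => (insert x z)ᶜ) (by simp) (by simp)
      (fun z hz => ?_) (fun z hz => ?_) fun z hz => ?_
    · ext y; by_cases h : y = x <;> simp_all
    · ext y; by_cases h : y = x <;> simp_all
    · have h1 := card_add_card_compl (insert x z)
      rw [card_insert_of_notMem (by simpa using hz), Fintype.card_fin] at h1
      have : (#z + 1 + #(insert x z)ᶜ : ℝ) = n := by exact_mod_cast h1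
      linarith
  simp only [sum_sub_distrib, sum_const, nsmul_eq_mul, ← mul_sum] at this ⊢
  linarith

theorem tele (n j : ℕ) : ∑ i ∈ range (j + 1), ((n + 1).choose i : ℝ) * (n + 1 - 2 * i) =
    (n + 1) * n.choose j := by
  induction j with
  | zero => simp
  | succ j ih =>
    rw [sum_range_succ, ih]
    have h1 : ((n + 1) * n.choose j : ℝ) = (n + 1).choose (j + 1) * (j + 1) := by
      exact_mod_cast Nat.add_one_mul_choose_eq n j
    have h2 : ((n + 1).choose (j + 1) : ℝ) = n.choose j + n.choose (j + 1) := by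
      exact_mod_cast Nat.choose_succ_succ' n j
    push_cast
    linear_combination 2 * h1 + (n + 1) * h2

theorem maj (k : ℕ) : ∑ z ∈ ({z | #z ≤ k} : Finset (Finset (Fin (2 * k + 1)))),
    (((2 * k + 1 : ℕ) : ℝ) - 2 * #z) = (2 * k + 1) * k.centralBinom := by
  have := sum_powerset_apply_card (x := (univ : Finset (Fin (2 * k + 1))))
    fun i => if i ≤ k then ((2 * k + 1 : ℕ) : ℝ) - 2 * i else 0
  rw [powerset_univ, ← sum_filter] at this
  rw [this, Nat.centralBinom_eq_two_mul_choose]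
  have t := tele (2 * k) k
  push_cast at t ⊢
  rw [← t, card_univ, Fintype.card_fin, ← sum_subset (range_subset_range.2
    (show k + 1 ≤ 2 * k + 1 + 1 by omega)) fun i _ hi => by
      rw [if_neg (by simpa [Nat.lt_succ_iff] using hi), smul_zero]]
  exact sum_congr rfl fun i hi => by
    rw [if_pos (by simpa [Nat.lt_succ_iff] using hi), nsmul_eq_mul]

theorem cb (k : ℕ) : (k + 1) * 16 ^ k ≤ ((2 * k + 1) * k.centralBinom) ^ 2 := by
  induction k with
  | zero => simp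
  | succ k ih =>
    have h := Nat.succ_mul_centralBinom_succ k
    refine Nat.le_of_mul_le_mul_left (c := (k + 1) ^ 2) ?_ (by positivity)
    calc _ = 16 * (k + 1) * (k + 2) * ((k + 1) * 16 ^ k) := by ring
      _ ≤ 4 * (2 * k + 3) ^ 2 * ((2 * k + 1) * k.centralBinom) ^ 2 :=
        Nat.mul_le_mul (by nlinarith) ih
      _ = (2 * k + 3) ^ 2 * (2 * (2 * k + 1) * k.centralBinom) ^ 2 := by ring
      _ = _ := by rw [← h]; ring

theorem split (m n : ℕ) : ∃ E : Finset (Fin (m + n)) ≃ Finset (Fin m) × Finset (Fin n),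
    (∀ x y, x ⊆ y ↔ E x ≤ E y) ∧ ∀ y, #y = #(E y).1 + #(E y).2 :=
  ⟨finSumFinEquiv.symm.finsetCongr.trans sumEquiv.toEquiv, fun _ _ =>
    (map_subset_map.symm.trans sumEquiv.le_iff_le.symm :), fun _ =>
    (card_map _).symm.trans card_toLeft_add_card_toRight.symm⟩

theorem cut {Q : Type} [Fintype Q] [DecidableEq Q] (S : Finset Q) (σ τ : Q → ℝ) (f : Q → Q → ℝ)
    (h1 : ∀ v, v ∉ S → σ v = 0) (h2 : ∀ v ∈ S, τ v = 0) (h3 : ∀ x y, 0 ≤ f x y)
    (h4 : ∀ v, σ v + ∑ x, f x v = τ v + ∑ y, f v y) :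
    ∑ v, σ v ≤ ∑ v ∈ S, ∑ y ∈ Sᶜ, f v y := by
  rw [← sum_subset (subset_univ S) fun v _ h => h1 v h]
  have e : ∑ v ∈ S, (σ v + ∑ x, f x v) = ∑ v ∈ S, ∑ y, f v y :=
    sum_congr rfl fun v hv => by rw [h4, h2 v hv, zero_add]
  simp only [← sum_add_sum_compl S (f _), ← sum_add_sum_compl S (f · _), sum_add_distrib] at e
  rw [sum_comm (s := S) (t := S)] at e
  have : 0 ≤ ∑ v ∈ S, ∑ x ∈ Sᶜ, f x v := sum_nonneg fun _ _ => sum_nonneg fun _ _ => h3 _ _
  linarith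

theorem num {c : ℝ} (hc : 0 < c) : ∃ M : ℝ, ∀ L ≥ M, ∃ t : ℕ,
    t + ((t + L) / (t + 1)) ^ 2 < c * (t + L) := by
  obtain ⟨K, hK⟩ := exists_nat_gt (max 1 (2 / c))
  have k1 : (1 : ℝ) < K := (le_max_left _ _).trans_lt hK
  have k2 : 2 < K * c := (div_lt_iff₀ hc).1 ((le_max_right _ _).trans_lt hK)
  refine ⟨4 * K ^ 3, fun L hL => ⟨⌊L / K⌋₊, ?_⟩⟩
  have l0 : 0 < L := lt_of_lt_of_le (by positivity) hL
  have a := (le_div_iff₀ (by positivity)).1 (Nat.floor_le (show 0 ≤ L / K by positivity))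
  have b := (div_lt_iff₀ (by positivity)).1 (Nat.lt_floor_add_one (L / K))
  generalize ⌊L / K⌋₊ = t at a b
  have t0 : (0 : ℝ) ≤ t := by positivity
  have h1 : (t + L) / (t + 1) ≤ 2 * K := by
    rw [div_le_iff₀ (by positivity)]; nlinarith
  have h2 := pow_le_pow_left₀ (by positivity) h1 2
  have h3 : 2 * t ≤ c * L := by nlinarith
  have h4 : 8 * K ^ 2 < c * (4 * K ^ 3) := by nlinarith [pow_pos (show (0 : ℝ) < K by positivity) 2]
  nlinarith [mul_le_mul_of_nonneg_left hL hc.le, mul_nonneg hc.le t0]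

end Pool.Agent.H.MP_02b125_co
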